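import Mathlib

/-!
# MP_6004b5_an: the failure is local and happens everywhere

Every nonempty open subset `U` of the unit disk contains a nonempty open set `E` such that the area of
`φ(E)` has a maximum among the conformal automorphisms `φ` of the disk, but one sense-preserving
univalent harmonic self-map `f` of the disk gives a larger area of `f(E)`.
-/

set_option autoImplicit false

namespace Pool.Agent.Results.MP_6004b5_an.EveryOpenSet

open Complex MeasureTheory Metric Set ComplexConjugate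

/-- Sense-preserving univalent harmonic self-mappings of the unit disk. -/
def InH (f : ℂ → ℂ) : Prop :=
  (∃ h g : ℂ → ℂ, DifferentiableOn ℂ h (ball 0 1) ∧ DifferentiableOn ℂ g (ball 0 1) ∧
    (∀ z ∈ ball (0 : ℂ) 1, f z = h z + conj (g z)) ∧
    ∀ z ∈ ball (0 : ℂ) 1, 0 < ‖deriv h z‖ ^ 2 - ‖deriv g z‖ ^ 2) ∧
  InjOn f (ball 0 1) ∧ MapsTo f (ball 0 1) (ball 0 1)

/-- The conformal automorphisms of the unit disk. -/
noncomputable def aut (θ : ℝ) (a z : ℂ) : ℂ := exp (I * θ) * ((z - a) / (1 - conj a * z))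

/-- The real-linear map `v ↦ A v + B conj v`. -/
noncomputable def L (A B : ℂ) : ℂ →L[ℝ] ℂ :=
  A • ContinuousLinearMap.id ℝ ℂ + B • (conjCLE : ℂ →L[ℝ] ℂ)

theorem detL (A B : ℂ) : (L A B).det = normSq A - normSq B := by
  rw [ContinuousLinearMap.det, ← LinearMap.det_toMatrix basisOneI, Matrix.det_fin_two]
  simp [LinearMap.toMatrix_apply, L, normSq_apply]
  ring

theorem hasL {h : ℂ → ℂ} {A z : ℂ} (hh : HasDerivAt h A z) (B : ℂ) :
    HasFDerivAt (fun w => h w + B * conj w) (L A B) z := by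
  have h1 := hh.hasFDerivAt.restrictScalars ℝ
  have h2 := ((conjCLE : ℂ →L[ℝ] ℂ).hasFDerivAt (x := z)).const_smul B
  have e : L A B = (ContinuousLinearMap.toSpanSingleton ℂ A).restrictScalars ℝ +
      B • (conjCLE : ℂ →L[ℝ] ℂ) := by
    refine ContinuousLinearMap.ext fun v => ?_
    simp [L, mul_comm]
  rw [e]
  exact h1.add h2

noncomputable def sc (b : ℝ) : ℝ := 1 - 2 * b ^ 2

/-- The harmonic maps. -/
noncomputable def F (b : ℝ) (z : ℂ) : ℂ :=
  (sc b : ℂ) * (z + b * z ^ 3) + (-(sc b * b : ℝ) : ℂ) * conj z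

theorem dh (b : ℝ) (z : ℂ) : HasDerivAt (fun z : ℂ => (sc b : ℂ) * (z + b * z ^ 3))
    ((sc b : ℂ) * (1 + 3 * b * z ^ 2)) z := by
  have := (((hasDerivAt_id' z).add (((hasDerivAt_id' z).pow 3).const_mul (b : ℂ))).const_mul
    (sc b : ℂ))
  exact this.congr_deriv (by push_cast; ring)

theorem sc_pos {b : ℝ} (h0 : 0 < b) (h1 : b ≤ 1 / 20) : 9 / 10 < sc b := by
  unfold sc; nlinarith

theorem injF {b : ℝ} (h0 : 0 < b) (hb : b ≤ 1 / 20) : InjOn (F b) (ball 0 1) := by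
  intro z hz w hw h
  rw [mem_ball_zero_iff] at hz hw
  have hs : (sc b : ℂ) ≠ 0 := by
    have : 0 < sc b := by linarith [sc_pos h0 hb]
    exact_mod_cast this.ne'
  have h1 : z - w = b * (conj (z - w) - (z - w) * (z ^ 2 + z * w + w ^ 2)) := by
    have h' : (sc b : ℂ) * ((z - w) - b * (conj (z - w) - (z - w) * (z ^ 2 + z * w + w ^ 2))) =
        0 := by
      simp only [F] at h
      rw [map_sub]
      push_cast at h
      linear_combination h
    exact sub_eq_zero.1 ((mul_eq_zero.1 h').resolve_left hs)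
  have h2 : ‖z ^ 2 + z * w + w ^ 2‖ ≤ 3 := by
    refine (norm_add₃_le).trans ?_
    rw [norm_pow, norm_pow, norm_mul]
    nlinarith [norm_nonneg z, norm_nonneg w]
  have h3 : ‖z - w‖ ≤ b * (‖z - w‖ + ‖z - w‖ * 3) := by
    conv_lhs => rw [h1]
    rw [norm_mul, norm_real, Real.norm_eq_abs, abs_of_pos h0]
    gcongr
    refine (norm_sub_le _ _).trans ?_
    rw [norm_mul, norm_conj]
    gcongr
  have h4 : ‖z - w‖ = 0 := by nlinarith [norm_nonneg (z - w)]
  exact sub_eq_zero.1 (norm_eq_zero.1 h4)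

theorem mapsF {b : ℝ} (h0 : 0 < b) (hb : b ≤ 1 / 20) : MapsTo (F b) (ball 0 1) (ball 0 1) := by
  intro z hz
  rw [mem_ball_zero_iff] at hz ⊢
  have hm : normSq z < 1 := by
    rw [normSq_eq_norm_sq]; nlinarith [norm_nonneg z]
  suffices normSq (F b z) < 1 by
    rw [normSq_eq_norm_sq] at this; nlinarith [norm_nonneg (F b z)]
  obtain ⟨x, y⟩ := z
  have e : normSq (F b ⟨x, y⟩) = sc b ^ 2 * ((x * x + y * y) +
      2 * b * (((x * x + y * y) - 1) * (x * x - y * y)) + b ^ 2 * ((x * x + y * y) *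
      ((x * x + y * y - 1) ^ 2)) + 4 * b ^ 2 * ((x * x + y * y) * (x * x + y * y)) -
      4 * b ^ 2 * (x * x - y * y) ^ 2) := by
    simp [F, normSq_apply, pow_succ]
    ring
  rw [normSq_apply] at hm
  simp only at hm
  rw [e]
  have hx := mul_self_nonneg x
  have hy := mul_self_nonneg y
  generalize x * x = p at *
  generalize y * y = q at *
  have h1 : ((p + q) - 1) * (p - q) ≤ 1 - (p + q) := by nlinarith
  have h2 : (p + q) * (p + q - 1) ^ 2 ≤ 1 - (p + q) := by nlinarith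
  have h3 : (p + q) * (p + q) < 1 := by nlinarith
  have b2 : 0 < b ^ 2 := by positivity
  have h4 : (p + q) + 2 * b * (((p + q) - 1) * (p - q)) + b ^ 2 * ((p + q) * ((p + q - 1) ^ 2)) +
      4 * b ^ 2 * ((p + q) * (p + q)) - 4 * b ^ 2 * (p - q) ^ 2 < 1 + 4 * b ^ 2 := by
    have k1 : 2 * b * (((p + q) - 1) * (p - q)) ≤ 2 * b * (1 - (p + q)) := by gcongr
    have k2 : b ^ 2 * ((p + q) * ((p + q - 1) ^ 2)) ≤ b ^ 2 * (1 - (p + q)) := by gcongr
    have k3 : 4 * b ^ 2 * ((p + q) * (p + q)) < 4 * b ^ 2 * 1 := by gcongr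
    have k4 : 0 ≤ 4 * b ^ 2 * (p - q) ^ 2 := by positivity
    have k5 : (2 * b + b ^ 2) * (1 - (p + q)) ≤ 1 * (1 - (p + q)) := by
      apply mul_le_mul_of_nonneg_right _ (by linarith)
      nlinarith
    nlinarith
  have h5 : sc b ^ 2 * (1 + 4 * b ^ 2) ≤ 1 := by
    unfold sc
    have b4 : b ^ 2 ≤ 1 / 400 := by nlinarith
    generalize b ^ 2 = t at *
    nlinarith [mul_pos b2 b2]
  have h6 : 0 < sc b ^ 2 := by have := sc_pos h0 hb; positivity
  exact (mul_lt_mul_of_pos_left h4 h6).trans_le h5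

theorem two (s x y : ℝ) (hs : s < 1) (hm : 16 * (x * x + y * y) ≤ s) :
    (1 - s) ^ 2 / ((1 - x) * (1 - x) + y * y) ^ 2 +
      (1 - s) ^ 2 / ((1 + x) * (1 + x) + y * y) ^ 2 ≤ 2 := by
  have hx := mul_self_nonneg x
  have hy := mul_self_nonneg y
  set m := x * x + y * y with hmd
  have hm0 : 0 ≤ m := by positivity
  have hm1 : m < 1 / 16 := by linarith
  have hxm : x * x ≤ m := by linarith
  have hx1 : x < 1 / 4 := by nlinarith
  have hx2 : -1 / 4 < x := by nlinarith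
  have hp : 0 < (1 - x) * (1 - x) + y * y := by nlinarith
  have hq : 0 < (1 + x) * (1 + x) + y * y := by nlinarith
  rw [div_add_div _ _ (by positivity) (by positivity), div_le_iff₀ (by positivity)]
  have e1 : (1 - x) * (1 - x) + y * y = 1 + m - 2 * x := by rw [hmd]; ring
  have e2 : (1 + x) * (1 + x) + y * y = 1 + m + 2 * x := by rw [hmd]; ring
  rw [e1, e2]
  have h1 : (1 - s) ^ 2 ≤ (1 - 16 * m) ^ 2 := by
    apply pow_le_pow_left₀ <;> linarith
  have h2 : (1 - m) ^ 2 ≤ (1 + m - 2 * x) * (1 + m + 2 * x) := by nlinarith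
  have h3 : ((1 - m) ^ 2) ^ 2 ≤ ((1 + m - 2 * x) * (1 + m + 2 * x)) ^ 2 :=
    pow_le_pow_left₀ (by positivity) h2 2
  have h4 : (1 + m + 2 * x) ^ 2 + (1 + m - 2 * x) ^ 2 ≤ 2 * (1 + 7 * m) := by nlinarith
  have h5 : (1 - 16 * m) ^ 2 * (1 + 7 * m) ≤ 1 - 4 * m := by nlinarith [mul_nonneg hm0 hm0]
  have h6 : 1 - 4 * m ≤ ((1 - m) ^ 2) ^ 2 := by
    nlinarith [mul_nonneg hm0 hm0, sq_nonneg (m * m), mul_nonneg hm0 (mul_nonneg hm0 hm0)]
  calc (1 - s) ^ 2 * (1 + m + 2 * x) ^ 2 + (1 + m - 2 * x) ^ 2 * (1 - s) ^ 2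
      = (1 - s) ^ 2 * ((1 + m + 2 * x) ^ 2 + (1 + m - 2 * x) ^ 2) := by ring
    _ ≤ (1 - 16 * m) ^ 2 * (2 * (1 + 7 * m)) := by gcongr
    _ ≤ 2 * ((1 + m - 2 * x) * (1 + m + 2 * x)) ^ 2 := by linarith
    _ = _ := by ring

/-- Moebius maps. -/
noncomputable def mo (u a z : ℂ) : ℂ := u * ((z - a) / (1 - conj a * z))

theorem den {a z : ℂ} (ha : ‖a‖ < 1) (hz : ‖z‖ < 1) : 1 - conj a * z ≠ 0 := fun h => by
  have : ‖conj a * z‖ = 1 := by rw [← sub_eq_zero.1 h, norm_one]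
  rw [norm_mul, norm_conj] at this
  nlinarith [norm_nonneg a, norm_nonneg z]

/-- The set near the origin. -/
theorem core {ρ : ℝ} (r0 : 0 < ρ) (r1 : ρ ≤ 1 / 4) : ∃ b : ℝ, 0 < b ∧ b ≤ 1 / 20 ∧ ∃ E : Set ℂ,
    E ⊆ ball 0 ρ ∧ IsOpen E ∧ E.Nonempty ∧ volume E < volume (F b '' E) ∧
    ∀ u a : ℂ, ‖u‖ = 1 → ‖a‖ < 1 → volume (mo u a '' E) ≤ volume E := by
  obtain ⟨b, hbd⟩ : ∃ b, b = ρ ^ 2 / 4 := ⟨_, rfl⟩
  have b0 : 0 < b := by rw [hbd]; positivity
  have b1 : b ≤ 1 / 20 := by rw [hbd]; nlinarith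
  set J : ℂ → ℝ := fun z => normSq ((sc b : ℂ) * (1 + 3 * b * z ^ 2)) -
    normSq (-(sc b * b : ℝ) : ℂ) with hJ
  have hJ0 : 1 < J ((9 / 10 * ρ : ℝ) : ℂ) := by
    have e : J ((9 / 10 * ρ : ℝ) : ℂ) = sc b ^ 2 * ((1 + 3 * b * (9 / 10 * ρ) ^ 2) ^ 2 - b ^ 2) := by
      have e1 : (sc b : ℂ) * (1 + 3 * b * ((9 / 10 * ρ : ℝ) : ℂ) ^ 2) =
        ((sc b * (1 + 3 * b * (9 / 10 * ρ) ^ 2) : ℝ) : ℂ) := by push_cast; ring
      rw [hJ]
      simp only
      rw [e1, normSq_neg, normSq_ofReal, normSq_ofReal]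
      ring
    rw [e, hbd, sc]
    have t1 : (ρ ^ 2) ^ 2 ≤ (1 / 16) ^ 2 := by
      apply pow_le_pow_left₀ (by positivity)
      nlinarith
    have t0 : 0 < (ρ ^ 2) ^ 2 := by positivity
    have e3 : (1 - 2 * (ρ ^ 2 / 4) ^ 2) ^ 2 *
        ((1 + 3 * (ρ ^ 2 / 4) * (9 / 10 * ρ) ^ 2) ^ 2 - (ρ ^ 2 / 4) ^ 2) =
        (1 - (ρ ^ 2) ^ 2 / 8) ^ 2 * ((1 + 243 / 400 * (ρ ^ 2) ^ 2) ^ 2 - (ρ ^ 2) ^ 2 / 16) := by
      ring
    rw [e3]
    generalize (ρ ^ 2) ^ 2 = T at *
    have k1 : 1 - T / 4 ≤ (1 - T / 8) ^ 2 := by nlinarith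
    have k2 : 1 + T ≤ (1 + 243 / 400 * T) ^ 2 - T / 16 := by nlinarith
    have k3 : 1 < (1 - T / 4) * (1 + T) := by nlinarith
    calc (1 : ℝ) < (1 - T / 4) * (1 + T) := k3
      _ ≤ _ := mul_le_mul k1 k2 (by linarith) (by positivity)
  obtain ⟨c, c1, c2⟩ := exists_between hJ0
  set E : Set ℂ := ball 0 ρ ∩ {z | c < J z} with hE
  have hJc : Continuous J := by rw [hJ]; fun_prop
  have hO : IsOpen E := isOpen_ball.inter (isOpen_lt continuous_const hJc)
  have hne : E.Nonempty := by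
    refine ⟨((9 / 10 * ρ : ℝ) : ℂ), ?_, c2⟩
    rw [mem_ball_zero_iff, norm_real, Real.norm_eq_abs, abs_of_pos (by positivity)]
    linarith
  have hM := hO.measurableSet
  have hfin : volume E ≠ ⊤ :=
    ((measure_mono inter_subset_left).trans_lt measure_ball_lt_top).ne
  have hball : ball (0 : ℂ) ρ ⊆ ball 0 1 := ball_subset_ball (by linarith)
  refine ⟨b, b0, b1, E, inter_subset_left, hO, hne, ?_, fun u a hu ha => ?_⟩
  · have hpos : volume E ≠ 0 := (hO.measure_pos volume hne).ne'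
    have hFd : ∀ z ∈ E, HasFDerivWithinAt (F b)
        (L ((sc b : ℂ) * (1 + 3 * b * z ^ 2)) (-(sc b * b : ℝ) : ℂ)) E z := fun z _ =>
      (hasL (dh b z) (-(sc b * b : ℝ) : ℂ)).hasFDerivWithinAt
    rw [← lintegral_abs_det_fderiv_eq_addHaar_image (f := F b) volume hM hFd
      ((injF b0 b1).mono (inter_subset_left.trans hball))]
    calc volume E = 1 * volume E := (one_mul _).symm
      _ < ENNReal.ofReal c * volume E :=
        ENNReal.mul_lt_mul_left hpos hfin (ENNReal.one_lt_ofReal.2 c1)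
      _ = ∫⁻ _ in E, ENNReal.ofReal c := (setLIntegral_const _ _).symm
      _ ≤ _ := by
        refine setLIntegral_mono' hM fun z hz => ENNReal.ofReal_le_ofReal ?_
        rw [detL]
        exact (le_of_lt hz.2).trans (le_abs_self _)
  · set K : ℂ → ℝ := fun z => (1 - normSq a) ^ 2 / normSq (1 - conj a * z) ^ 2 with hK
    have hne : ∀ z ∈ E, 1 - conj a * z ≠ 0 := fun z hz =>
      den ha (mem_ball_zero_iff.1 (hball hz.1))
    have hd : ∀ z ∈ E, HasFDerivWithinAt (mo u a)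
        (L (u * ((1 - normSq a : ℝ) / (1 - conj a * z) ^ 2)) 0) E z := by
      intro z hz
      have h1 := (((hasDerivAt_id' z).sub_const a).div
        (((hasDerivAt_id' z).const_mul (conj a)).const_sub 1) (hne z hz)).const_mul u
      have h2 := (hasL h1 0).hasFDerivWithinAt (s := E)
      convert h2 using 1
      · ext w; simp [mo]
      · congr 3
        push_cast
        rw [normSq_eq_conj_mul_self]
        ring
    refine (addHaar_image_le_lintegral_abs_det_fderiv volume hM hd).trans ?_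
    have hKm : Measurable fun z => ENNReal.ofReal (K z) := by
      rw [hK]; fun_prop
    have e1 : ∫⁻ z in E, ENNReal.ofReal |(L (u * ((1 - normSq a : ℝ) /
        (1 - conj a * z) ^ 2)) 0).det| = ∫⁻ z in E, ENNReal.ofReal (K z) := by
      refine lintegral_congr fun z => ?_
      rw [detL, map_zero, sub_zero, abs_of_nonneg (normSq_nonneg _), map_mul, map_div₀, map_pow,
        normSq_ofReal, normSq_eq_norm_sq u, hu, hK]
      congr 1
      ring
    have e2 : ∫⁻ z in E, ENNReal.ofReal (K z) = ∫⁻ z in E, ENNReal.ofReal (K (-z)) := by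
      rw [← lintegral_indicator hM, ← lintegral_indicator hM, ← lintegral_neg_eq_self]
      refine lintegral_congr fun z => ?_
      have : -z ∈ E ↔ z ∈ E := by simp [hE, hJ]
      by_cases h : z ∈ E
      · rw [indicator_of_mem h, indicator_of_mem (this.2 h)]
      · rw [indicator_of_notMem h, indicator_of_notMem (mt this.1 h)]
    rw [e1, ← ENNReal.mul_le_mul_iff_right (a := 2) (by norm_num) (by norm_num), two_mul]
    nth_rewrite 2 [e2]
    rw [← lintegral_add_left hKm, ← setLIntegral_const]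
    refine setLIntegral_mono' hM fun z hz => ?_
    rw [← ENNReal.ofReal_add (by rw [hK]; positivity) (by rw [hK]; positivity),
      ← ENNReal.ofReal_ofNat]
    refine ENNReal.ofReal_le_ofReal ?_
    have h2 := mem_ball_zero_iff.1 hz.1
    have h3 : 16 * normSq (conj a * z) ≤ normSq a := by
      rw [map_mul, normSq_conj, normSq_eq_norm_sq z]
      have : ‖z‖ ^ 2 ≤ 1 / 16 := by nlinarith [norm_nonneg z]
      nlinarith [normSq_nonneg a]
    have h4 : normSq a < 1 := by rw [normSq_eq_norm_sq]; nlinarith [norm_nonneg a]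
    have := two (normSq a) (conj a * z).re (conj a * z).im h4 (by rwa [← normSq_apply])
    simp only [hK, mul_neg, sub_neg_eq_add]
    rw [normSq_apply (1 - _), normSq_apply (1 + _), sub_re, sub_im, add_re, add_im, one_re, one_im,
      zero_sub, zero_add, neg_mul_neg]
    exact this

theorem mob {a z : ℂ} (ha : ‖a‖ < 1) (hz : ‖z‖ < 1) : ‖(z - a) / (1 - conj a * z)‖ < 1 := by
  rw [norm_div, div_lt_one (norm_pos_iff.2 (den ha hz)), ← sq_lt_sq₀ (norm_nonneg _)
    (norm_nonneg _)]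
  have h1 : 0 < (1 - ‖a‖ ^ 2) * (1 - ‖z‖ ^ 2) :=
    mul_pos (by nlinarith [norm_nonneg a]) (by nlinarith [norm_nonneg z])
  simp only [Complex.sq_norm, normSq_apply] at h1 ⊢
  simp
  nlinarith

theorem mo_ball {a z : ℂ} (ha : ‖a‖ < 1) (hz : ‖z‖ < 1) : ‖mo 1 a z‖ < 1 := by
  rw [mo, one_mul]; exact mob ha hz

theorem mo_inv {a z : ℂ} (ha : ‖a‖ < 1) (hz : ‖z‖ < 1) : mo 1 (-a) (mo 1 a z) = z := by
  have h1 := den ha hz
  have h2 : ‖-a‖ < 1 := by rwa [norm_neg]
  rw [mo, one_mul, div_eq_iff (den h2 (mo_ball ha hz))]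
  simp only [map_neg]
  have hq : mo 1 a z * (1 - conj a * z) = z - a := by
    rw [mo, one_mul, div_mul_cancel₀ _ h1]
  linear_combination hq

theorem mo_comp {u a p w : ℂ} (ha : ‖a‖ < 1) (hp : ‖p‖ < 1) (hw : ‖w‖ < 1) :
    mo u a (mo 1 (-p) w) =
      mo (u * ((1 - conj p * a) / (1 - conj a * p))) ((a - p) / (1 - conj p * a)) w := by
  have hp' : ‖-p‖ < 1 := by rwa [norm_neg]
  have d1 := den hp' hw
  have d2 := den ha hp
  have d3 := den hp ha
  have d4 := den ha (mo_ball hp' hw)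
  have d5 := den (mob hp ha) hw
  have e1 : conj ((a - p) / (1 - conj p * a)) = (conj a - conj p) / (1 - conj a * p) := by
    rw [map_div₀, map_sub, map_sub, map_mul, map_one, conj_conj, mul_comm p]
  rw [e1] at d5
  have d6 : 1 - conj a * p - (conj a - conj p) * w ≠ 0 := by
    intro h
    apply d5
    rw [div_mul_eq_mul_div, sub_eq_zero, eq_comm, div_eq_one_iff_eq d2]
    linear_combination -h
  have hq : mo 1 (-p) w * (1 - conj (-p) * w) = w - -p := by
    rw [mo, one_mul, div_mul_cancel₀ _ d1]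
  have hR : (w - (a - p) / (1 - conj p * a)) / (1 - (conj a - conj p) / (1 - conj a * p) * w) =
      ((1 - conj a * p) / (1 - conj p * a)) * (((1 - conj p * a) * w - (a - p)) /
        (1 - conj a * p - (conj a - conj p) * w)) := by
    have d7 : 1 - (conj a - conj p) / (1 - conj a * p) * w =
        (1 - conj a * p - (conj a - conj p) * w) / (1 - conj a * p) := by
      field_simp
    have d8 : w - (a - p) / (1 - conj p * a) = ((1 - conj p * a) * w - (a - p)) /
        (1 - conj p * a) := by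
      rw [eq_div_iff d3, sub_mul, div_mul_cancel₀ _ d3]
      ring
    rw [d7, d8, div_div_div_eq, div_mul_div_comm]
    congr 1
    ring
  have hL : (mo 1 (-p) w - a) / (1 - conj a * mo 1 (-p) w) =
      ((1 - conj p * a) * w - (a - p)) / (1 - conj a * p - (conj a - conj p) * w) := by
    rw [div_eq_div_iff d4 d6]
    have hq' : mo 1 (-p) w * (1 + conj p * w) = w + p := by
      rw [map_neg] at hq
      linear_combination hq
    generalize mo 1 (-p) w = X at *
    linear_combination (1 - conj a * a) * hq'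
  have hPQ : ((1 - conj p * a) / (1 - conj a * p)) * ((1 - conj a * p) / (1 - conj p * a)) =
      1 := by
    rw [div_mul_div_comm, mul_comm (1 - conj a * p), div_self (mul_ne_zero d3 d2)]
  rw [mo, hL, mo, e1, hR]
  linear_combination (-(u * (((1 - conj p * a) * w - (a - p)) /
    (1 - conj a * p - (conj a - conj p) * w)))) * hPQ

theorem inH_comp {b : ℝ} (h0 : 0 < b) (hb : b ≤ 1 / 20) {p : ℂ} (hp : ‖p‖ < 1) :
    InH fun z => F b (mo 1 p z) := by
  have hm : ∀ z ∈ ball (0 : ℂ) 1, ‖mo 1 p z‖ < 1 := fun z hz =>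
    mo_ball hp (mem_ball_zero_iff.1 hz)
  have hd : ∀ z ∈ ball (0 : ℂ) 1, HasDerivAt (mo 1 p) ((1 - normSq p : ℝ) /
      (1 - conj p * z) ^ 2) z := by
    intro z hz
    have h1 := (((hasDerivAt_id' z).sub_const p).div
      (((hasDerivAt_id' z).const_mul (conj p)).const_sub 1)
        (den hp (mem_ball_zero_iff.1 hz))).const_mul 1
    refine h1.congr_deriv ?_
    push_cast
    rw [normSq_eq_conj_mul_self]
    ring
  have hh : ∀ z ∈ ball (0 : ℂ) 1, HasDerivAt
      (fun z => (sc b : ℂ) * (mo 1 p z + b * mo 1 p z ^ 3))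
      ((sc b : ℂ) * (1 + 3 * b * mo 1 p z ^ 2) * ((1 - normSq p : ℝ) / (1 - conj p * z) ^ 2)) z :=
    fun z hz => (dh b (mo 1 p z)).comp z (hd z hz)
  have hg : ∀ z ∈ ball (0 : ℂ) 1, HasDerivAt
      (fun z => (-(sc b * b : ℝ) : ℂ) * mo 1 p z)
      ((-(sc b * b : ℝ) : ℂ) * ((1 - normSq p : ℝ) / (1 - conj p * z) ^ 2)) z :=
    fun z hz => (hd z hz).const_mul _
  refine ⟨⟨fun z => (sc b : ℂ) * (mo 1 p z + b * mo 1 p z ^ 3),
    fun z => (-(sc b * b : ℝ) : ℂ) * mo 1 p z,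
    fun z hz => (hh z hz).differentiableAt.differentiableWithinAt,
    fun z hz => (hg z hz).differentiableAt.differentiableWithinAt, fun z _ => ?_,
    fun z hz => ?_⟩, fun z hz w hw h => ?_, fun z hz => ?_⟩
  · simp [F]
  · rw [(hh z hz).deriv, (hg z hz).deriv]
    have hz1 := hm z hz
    have hd0 : (0 : ℝ) < ‖(((1 - normSq p : ℝ) : ℂ) / (1 - conj p * z) ^ 2)‖ := by
      rw [norm_pos_iff]
      refine div_ne_zero ?_ (pow_ne_zero 2 (den hp (mem_ball_zero_iff.1 hz)))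
      have : normSq p < 1 := by rw [normSq_eq_norm_sq]; nlinarith [norm_nonneg p]
      exact_mod_cast (by linarith : (0 : ℝ) < 1 - normSq p).ne'
    have h1 : 1 - 3 / 20 ≤ ‖1 + 3 * (b : ℂ) * mo 1 p z ^ 2‖ := by
      have := norm_sub_le (1 + 3 * (b : ℂ) * mo 1 p z ^ 2) (3 * (b : ℂ) * mo 1 p z ^ 2)
      rw [add_sub_cancel_right, norm_one, norm_mul, norm_mul, norm_pow, norm_real,
        Real.norm_eq_abs, abs_of_pos h0] at this
      simp only [norm_ofNat] at this
      have h2 : ‖mo 1 p z‖ ^ 2 ≤ 1 := by nlinarith [norm_nonneg (mo 1 p z)]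
      nlinarith
    have hs := sc_pos h0 hb
    rw [norm_mul, norm_mul, norm_mul, norm_neg, norm_real, norm_real, Real.norm_eq_abs,
      Real.norm_eq_abs, abs_of_pos (by linarith), abs_of_pos (by positivity)]
    have h3 : sc b * b < sc b * ‖1 + 3 * (b : ℂ) * mo 1 p z ^ 2‖ := by
      apply mul_lt_mul_of_pos_left _ (by linarith)
      linarith
    have h4 : 0 < sc b * b := by positivity
    generalize ‖(((1 - normSq p : ℝ) : ℂ) / (1 - conj p * z) ^ 2)‖ = X at *
    generalize sc b * ‖1 + 3 * (b : ℂ) * mo 1 p z ^ 2‖ = Y at *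
    generalize sc b * b = Z at *
    have : 0 < X ^ 2 * ((Y - Z) * (Y + Z)) :=
      mul_pos (pow_pos hd0 2) (mul_pos (sub_pos.2 h3) (by linarith))
    nlinarith
  · have h1 := injF h0 hb (mem_ball_zero_iff.2 (hm z hz)) (mem_ball_zero_iff.2 (hm w hw)) h
    rw [← mo_inv hp (mem_ball_zero_iff.1 hz), ← mo_inv hp (mem_ball_zero_iff.1 hw), h1]
  · exact mapsF h0 hb (mem_ball_zero_iff.2 (hm z hz))

theorem aut_eq (θ : ℝ) (a z : ℂ) : aut θ a z = mo (exp (I * θ)) a z := rfl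

/-- **The conjecture fails inside every nonempty open subset of the disk.** Every nonempty open
subset `U` of the disk contains a nonempty open set `E` for which the area of the image has a maximum
among the conformal automorphisms of the disk, attained by `aut θ₀ a₀`, while one sense-preserving
univalent harmonic self-map `f` of the disk gives a larger area. -/
theorem result (U : Set ℂ) (hU : IsOpen U) (hne : U.Nonempty) (hUD : U ⊆ ball 0 1) :
    ∃ E ⊆ U, IsOpen E ∧ E.Nonempty ∧ ∃ f, InH f ∧ ∃ (θ₀ : ℝ) (a₀ : ℂ), ‖a₀‖ < 1 ∧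
      (∀ (θ : ℝ) (a : ℂ), ‖a‖ < 1 → volume (aut θ a '' E) ≤ volume (aut θ₀ a₀ '' E)) ∧
      volume (aut θ₀ a₀ '' E) < volume (f '' E) := by
  obtain ⟨p, hpU⟩ := hne
  have hp : ‖p‖ < 1 := mem_ball_zero_iff.1 (hUD hpU)
  have hp' : ‖-p‖ < 1 := by rwa [norm_neg]
  have hc : ContinuousAt (mo 1 (-p)) 0 := by
    unfold mo
    exact continuousAt_const.mul (ContinuousAt.div (by fun_prop) (by fun_prop)
      (den hp' (by simp)))
  have hψ0 : mo 1 (-p) 0 = p := by simp [mo]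
  obtain ⟨r, hr, hrb⟩ : ∃ r > 0, ball (0 : ℂ) r ⊆ mo 1 (-p) ⁻¹' U :=
    Metric.mem_nhds_iff.1 (hc (hU.mem_nhds (by rwa [hψ0])))
  obtain ⟨b, b0, b1, E0, hE0, hO, hne0, hlt, hle⟩ := core (ρ := min r (1 / 4))
    (lt_min hr (by norm_num)) (min_le_right _ _)
  have hE1 : ∀ w ∈ E0, ‖w‖ < 1 := fun w hw => by
    have := mem_ball_zero_iff.1 (hE0 hw)
    have := min_le_right r (1 / 4 : ℝ)
    linarith
  have hback : ∀ w ∈ E0, mo 1 p (mo 1 (-p) w) = w := fun w hw => by
    have := mo_inv hp' (hE1 w hw)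
    rwa [neg_neg] at this
  have hcont : ContinuousOn (mo 1 p) (ball 0 1) := by
    unfold mo
    refine continuousOn_const.mul (ContinuousOn.div (by fun_prop) (by fun_prop) fun z hz => ?_)
    exact den hp (mem_ball_zero_iff.1 hz)
  have hmem : ∀ w ∈ E0, mo 1 (-p) w ∈ ball (0 : ℂ) 1 ∩ mo 1 p ⁻¹' E0 := fun w hw =>
    ⟨mem_ball_zero_iff.2 (mo_ball hp' (hE1 w hw)), by rw [mem_preimage, hback w hw]; exact hw⟩
  have h0 : volume (aut 0 p '' (ball (0 : ℂ) 1 ∩ mo 1 p ⁻¹' E0)) = volume E0 := by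
    congr 1
    have e : ∀ z, aut 0 p z = mo 1 p z := fun z => by rw [aut_eq]; simp
    ext w
    constructor
    · rintro ⟨z, hz, rfl⟩
      rw [e]; exact hz.2
    · exact fun hw => ⟨_, hmem w hw, by rw [e, hback w hw]⟩
  refine ⟨ball 0 1 ∩ mo 1 p ⁻¹' E0, fun z hz => ?_, hcont.isOpen_inter_preimage isOpen_ball hO,
    ?_, fun z => F b (mo 1 p z), inH_comp b0 b1 hp, 0, p, hp, fun θ a ha => ?_, ?_⟩
  · have h1 := hrb ((ball_subset_ball (min_le_left r (1 / 4))) (hE0 hz.2))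
    rwa [mem_preimage, mo_inv hp (mem_ball_zero_iff.1 hz.1)] at h1
  · obtain ⟨w, hw⟩ := hne0
    exact ⟨_, hmem w hw⟩
  · rw [h0]
    have hu : ‖exp (I * θ) * ((1 - conj p * a) / (1 - conj a * p))‖ = 1 := by
      rw [norm_mul, mul_comm I, norm_exp_ofReal_mul_I, one_mul, norm_div,
        div_eq_one_iff_eq (norm_ne_zero_iff.2 (den ha hp)), ← norm_conj]
      congr 1
      rw [map_sub, map_mul, map_one, conj_conj, mul_comm]
    refine (measure_mono ?_).trans (hle _ ((a - p) / (1 - conj p * a)) hu (mob hp ha))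
    rintro _ ⟨z, hz, rfl⟩
    refine ⟨mo 1 p z, hz.2, ?_⟩
    rw [← mo_comp ha hp (hE1 _ hz.2), mo_inv hp (mem_ball_zero_iff.1 hz.1), aut_eq]
  · rw [h0]
    refine hlt.trans_le (measure_mono ?_)
    rintro _ ⟨w, hw, rfl⟩
    exact ⟨_, hmem w hw, by simp only [hback w hw]⟩

end Pool.Agent.Results.MP_6004b5_an.EveryOpenSet
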